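import Mathlib

/-!
# Keyword substitution graphs: the orbit question has a negative answer

We formalise the graphs `G_n^(a)` and show that the keywords `011000` and `010000` (`m = 5`)
have isomorphic graphs for every `n`, although they are not related by negation, seminegation
and reversal.
-/

namespace Pool.Agent.Results.MP_53071c_co.Disproof

/-- Binary words of length `n`; the letter in position `k` (`1 ≤ k ≤ n`) is the value at the
index `k - 1`. -/
abbrev Word (n : ℕ) : Type := Fin n → Bool

/-- Negation flips every letter. -/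
def negation {n : ℕ} (u : Word n) : Word n := fun j => !(u j)

/-- Reversal. -/
def reversal {n : ℕ} (u : Word n) : Word n := fun j => u (Fin.rev j)

/-- Seminegation flips the letters in the even positions `2, 4, …`, that is, at the odd indices. -/
def seminegation {n : ℕ} (u : Word n) : Word n :=
  fun j => if (j : ℕ) % 2 = 1 then !(u j) else u j

/-- The word obtained from `u` by negating the `m + 1` letters at the indices `i, …, i + m`. -/
def flipBlock {n : ℕ} (m i : ℕ) (u : Word n) : Word n :=
  fun j => if i ≤ (j : ℕ) ∧ (j : ℕ) ≤ i + m then !(u j) else u j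

/-- `Occurs a u i`: the block of `u` at the indices `i, …, i + m` exists and equals `a`. -/
def Occurs {n m : ℕ} (a : Word (m + 1)) (u : Word n) (i : ℕ) : Prop :=
  i + m < n ∧ ∀ (k : Fin (m + 1)) (h : i + (k : ℕ) < n), u ⟨i + (k : ℕ), h⟩ = a k

open Classical in
/-- The substitution `φ_i^(a)`. -/
noncomputable def subst {n m : ℕ} (a : Word (m + 1)) (i : ℕ) (u : Word n) : Word n :=
  if Occurs a u i ∨ Occurs (negation a) u i then flipBlock m i u else u

theorem flipBlock_flipBlock {n : ℕ} (m i : ℕ) (u : Word n) :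
    flipBlock m i (flipBlock m i u) = u := by
  funext j
  unfold flipBlock
  split_ifs <;> simp

theorem negation_negation {n : ℕ} (u : Word n) : negation (negation u) = u := by
  funext j; simp [negation]

theorem occurs_flipBlock {n m : ℕ} (a : Word (m + 1)) (u : Word n) (i : ℕ) :
    Occurs a (flipBlock m i u) i ↔ Occurs (negation a) u i := by
  unfold Occurs
  refine and_congr_right fun h => ?_
  refine forall_congr' fun k => forall_congr' fun hk => ?_
  have hk' := k.isLt
  have h1 : i ≤ i + (k : ℕ) ∧ i + (k : ℕ) ≤ i + m := by omega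
  simp only [flipBlock, negation, h1, and_self, if_true]
  cases u ⟨i + (k : ℕ), hk⟩ <;> cases a k <;> simp

theorem subst_subst {n m : ℕ} (a : Word (m + 1)) (i : ℕ) (u : Word n) :
    subst a i (subst a i u) = u := by
  unfold subst
  by_cases h : Occurs a u i ∨ Occurs (negation a) u i
  · have h' : Occurs a (flipBlock m i u) i ∨ Occurs (negation a) (flipBlock m i u) i := by
      rw [occurs_flipBlock, occurs_flipBlock, negation_negation]
      exact h.symm
    rw [if_pos h, if_pos h', flipBlock_flipBlock]
  · rw [if_neg h, if_neg h]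

/-- The keyword substitution graph `G_n^(a)`: distinct words `u`, `v` are adjacent iff
`v = φ_i^(a)(u)` for some block position `i` (here `i + m < n`, indices starting from `0`). -/
noncomputable def keywordGraph (n : ℕ) {m : ℕ} (a : Word (m + 1)) : SimpleGraph (Word n) where
  Adj u v := u ≠ v ∧ ∃ i : ℕ, i + m < n ∧ v = subst a i u
  symm := ⟨by
    rintro u v ⟨hne, i, hi, rfl⟩
    exact ⟨hne.symm, i, hi, (subst_subst a i u).symm⟩⟩
  loopless := ⟨by
    rintro u ⟨hne, _⟩
    exact hne rfl⟩

/-- `Related a b`: the word `b` is obtained from `a` by a finite composition of negation,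
seminegation and reversal. -/
inductive Related {n : ℕ} (a : Word n) : Word n → Prop
  | refl : Related a a
  | neg {b : Word n} : Related a b → Related a (negation b)
  | semineg {b : Word n} : Related a b → Related a (seminegation b)
  | rev {b : Word n} : Related a b → Related a (reversal b)


/-! ### The two keywords -/

/-- The keyword `011000`. -/
def keyA : Word (5 + 1) := ![false, true, true, false, false, false]

/-- The keyword `010000`. -/
def keyB : Word (5 + 1) := ![false, true, false, false, false, false]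

/-- The letter of `u` at index `j` (`false` outside the word). -/
def letter {n : ℕ} (u : Word n) (j : ℕ) : Bool := if h : j < n then u ⟨j, h⟩ else false

theorem letter_of_lt {n : ℕ} (u : Word n) {j : ℕ} (h : j < n) : letter u j = u ⟨j, h⟩ := by
  simp [letter, h]

/-- The block of `u` at index `i` is one of the two keywords or one of their negations. -/
def Act {n : ℕ} (u : Word n) (i : ℕ) : Prop :=
  i + 5 < n ∧ letter u (i + 1) = !(letter u i) ∧ letter u (i + 3) = letter u i ∧
    letter u (i + 4) = letter u i ∧ letter u (i + 5) = letter u i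

/-- One block negation. -/
def mv {n : ℕ} (u : Word n) (i : ℕ) : Word n := flipBlock 5 i u

theorem mv_mv {n : ℕ} (u : Word n) (i : ℕ) : mv (mv u i) i = u := flipBlock_flipBlock 5 i u

theorem letter_mv {n : ℕ} (u : Word n) (i j : ℕ) (hi : i + 5 < n) :
    letter (mv u i) j = if i ≤ j ∧ j ≤ i + 5 then !(letter u j) else letter u j := by
  unfold letter mv flipBlock
  by_cases h : j < n
  · simp [h]
  · have : ¬ (i ≤ j ∧ j ≤ i + 5) := by omega
    simp [h, this]

theorem letter_mv_in {n : ℕ} (u : Word n) {i j : ℕ} (hi : i + 5 < n) (h1 : i ≤ j)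
    (h2 : j ≤ i + 5) : letter (mv u i) j = !(letter u j) := by
  rw [letter_mv u i j hi, if_pos ⟨h1, h2⟩]

theorem letter_mv_out {n : ℕ} (u : Word n) {i j : ℕ} (hi : i + 5 < n)
    (h : j < i ∨ i + 5 < j) : letter (mv u i) j = letter u j := by
  rw [letter_mv u i j hi, if_neg (by omega)]

theorem act_mv {n : ℕ} {u : Word n} {i : ℕ} (h : Act u i) : Act (mv u i) i := by
  obtain ⟨hi, h1, h3, h4, h5⟩ := h
  refine ⟨hi, ?_, ?_, ?_, ?_⟩ <;>
    simp only [letter_mv_in u hi (show i ≤ i by omega) (show i ≤ i + 5 by omega),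
      letter_mv_in u hi (show i ≤ i + 1 by omega) (show i + 1 ≤ i + 5 by omega),
      letter_mv_in u hi (show i ≤ i + 3 by omega) (show i + 3 ≤ i + 5 by omega),
      letter_mv_in u hi (show i ≤ i + 4 by omega) (show i + 4 ≤ i + 5 by omega),
      letter_mv_in u hi (show i ≤ i + 5 by omega) (show i + 5 ≤ i + 5 by omega), h1, h3, h4, h5]

/-- `Run l u v`: performing block negations at the positions in `l`, each of them active when it
is used, leads from `u` to `v`. -/
def Run {n : ℕ} : List ℕ → Word n → Word n → Prop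
  | [], u, v => u = v
  | a :: l, u, v => Act u a ∧ Run l (mv u a) v

theorem run_append {n : ℕ} {l₁ l₂ : List ℕ} {u v w : Word n} (h₁ : Run l₁ u v)
    (h₂ : Run l₂ v w) : Run (l₁ ++ l₂) u w := by
  induction l₁ generalizing u with
  | nil => simp only [Run] at h₁; subst h₁; simpa using h₂
  | cons a l ih => exact ⟨h₁.1, ih h₁.2⟩

theorem run_reverse {n : ℕ} {l : List ℕ} {u v : Word n} (h : Run l u v) :
    Run l.reverse v u := by
  induction l generalizing u with
  | nil => simp only [Run] at h; subst h; simp [Run]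
  | cons a l ih =>
    rw [List.reverse_cons]
    refine run_append (ih h.2) ?_
    exact ⟨act_mv h.1, mv_mv u a⟩

theorem run_split {n : ℕ} {l : List ℕ} {u v : Word n} (h : Run l u v) {a : ℕ} (ha : a ∈ l) :
    ∃ (l₁ l₂ : List ℕ) (w : Word n), l₁.length + l₂.length < l.length ∧ Run l₁ u w ∧ Act w a ∧
      Run l₂ (mv w a) v := by
  induction l generalizing u with
  | nil => simp at ha
  | cons b l ih =>
    rcases List.mem_cons.1 ha with rfl | ha
    · exact ⟨[], l, u, by simp, rfl, h.1, h.2⟩
    · obtain ⟨l₁, l₂, w, hl, h1, h2, h3⟩ := ih h.2 ha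
      refine ⟨b :: l₁, l₂, w, ?_, ⟨h.1, h1⟩, h2, h3⟩
      simp only [List.length_cons]; omega

theorem run_letter {n : ℕ} {l : List ℕ} {u v : Word n} (h : Run l u v) (j : ℕ)
    (hj : ∀ a ∈ l, j < a ∨ a + 5 < j) : letter u j = letter v j := by
  induction l generalizing u with
  | nil => simp only [Run] at h; rw [h]
  | cons b l ih =>
    rw [← ih h.2 (fun a ha => hj a (List.mem_cons_of_mem _ ha))]
    exact (letter_mv_out u h.1.1 (hj b (by simp))).symm

/-- Two positions which are both active somewhere in a component do not overlap. -/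
theorem noConflict {n : ℕ} (N : ℕ) : ∀ (l : List ℕ), l.length ≤ N → ∀ (u v : Word n) (k k' : ℕ),
    Run l u v → Act u k → Act v k' → k = k' ∨ k + 5 ≤ k' ∨ k' + 5 ≤ k := by
  induction N using Nat.strong_induction_on with
  | _ N IH =>
    intro l hl u v k k' hrun hk hk'
    by_contra hcon
    -- all moves in the run keep away from both positions
    have hfar : ∀ a ∈ l, (k + 5 ≤ a ∨ a + 5 ≤ k) ∧ (k' + 5 ≤ a ∨ a + 5 ≤ k') := by
      intro a ha
      obtain ⟨l₁, l₂, w, hlen, h1, h2, h3⟩ := run_split hrun ha
      have c1 := IH l₁.length (by omega) l₁ le_rfl u w k a h1 hk h2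
      have c2 := IH l₂.length (by omega) l₂ le_rfl (mv w a) v a k' h3 (act_mv h2) hk'
      omega
    have key : ∀ j, k < j ∨ k' < j → j < k + 5 ∨ j < k' + 5 → (k ≤ j ∧ j ≤ k + 5) →
        (k' ≤ j ∧ j ≤ k' + 5) → letter u j = letter v j := by
      intro j hj1 hj2 hj3 hj4
      refine run_letter hrun j fun a ha => ?_
      have := hfar a ha
      omega
    obtain ⟨hkn, p1, p3, p4, p5⟩ := hk
    obtain ⟨hkn', q1, q3, q4, q5⟩ := hk'
    have hcases : k' = k + 1 ∨ k' = k + 2 ∨ k' = k + 3 ∨ k' = k + 4 ∨
        k = k' + 1 ∨ k = k' + 2 ∨ k = k' + 3 ∨ k = k' + 4 := by omega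
    rcases hcases with rfl | rfl | rfl | rfl | rfl | rfl | rfl | rfl
    · have e1 := key (k + 1) (by omega) (by omega) (by omega) (by omega)
      have e4 := key (k + 4) (by omega) (by omega) (by omega) (by omega)
      simp only [Nat.add_assoc, Nat.reduceAdd] at *
      rw [p1] at e1; rw [p4] at e4; rw [q3, ← e1] at e4
      cases h : letter u k <;> simp [h] at e4
    · have e1 := key (k + 3) (by omega) (by omega) (by omega) (by omega)
      have e4 := key (k + 5) (by omega) (by omega) (by omega) (by omega)
      simp only [Nat.add_assoc, Nat.reduceAdd] at *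
      rw [p3, q1] at e1; rw [p5, q3] at e4; rw [← e4] at e1
      cases h : letter u k <;> simp [h] at e1
    · have e1 := key (k + 3) (by omega) (by omega) (by omega) (by omega)
      have e4 := key (k + 4) (by omega) (by omega) (by omega) (by omega)
      simp only [Nat.add_assoc, Nat.reduceAdd] at *
      rw [p3] at e1; rw [p4, q1, ← e1] at e4
      cases h : letter u k <;> simp [h] at e4
    · have e1 := key (k + 4) (by omega) (by omega) (by omega) (by omega)
      have e4 := key (k + 5) (by omega) (by omega) (by omega) (by omega)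
      simp only [Nat.add_assoc, Nat.reduceAdd] at *
      rw [p4] at e1; rw [p5, q1, ← e1] at e4
      cases h : letter u k <;> simp [h] at e4
    · have e1 := key (k' + 1) (by omega) (by omega) (by omega) (by omega)
      have e4 := key (k' + 4) (by omega) (by omega) (by omega) (by omega)
      simp only [Nat.add_assoc, Nat.reduceAdd] at *
      rw [q1] at e1; rw [q4, p3, e1] at e4
      cases h : letter v k' <;> simp [h] at e4
    · have e1 := key (k' + 3) (by omega) (by omega) (by omega) (by omega)
      have e4 := key (k' + 5) (by omega) (by omega) (by omega) (by omega)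
      simp only [Nat.add_assoc, Nat.reduceAdd] at *
      rw [q3, p1] at e1; rw [q5, p3] at e4; rw [e4] at e1
      cases h : letter v k' <;> simp [h] at e1
    · have e1 := key (k' + 3) (by omega) (by omega) (by omega) (by omega)
      have e4 := key (k' + 4) (by omega) (by omega) (by omega) (by omega)
      simp only [Nat.add_assoc, Nat.reduceAdd] at *
      rw [q3] at e1; rw [q4, p1, e1] at e4
      cases h : letter v k' <;> simp [h] at e4
    · have e1 := key (k' + 4) (by omega) (by omega) (by omega) (by omega)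
      have e4 := key (k' + 5) (by omega) (by omega) (by omega) (by omega)
      simp only [Nat.add_assoc, Nat.reduceAdd] at *
      rw [q4] at e1; rw [q5, p1, e1] at e4
      cases h : letter v k' <;> simp [h] at e4

/-- The position `i` is active in some word of the component of `u`. -/
def Live {n : ℕ} (u : Word n) (i : ℕ) : Prop := ∃ (l : List ℕ) (v : Word n), Run l u v ∧ Act v i

theorem live_of_act {n : ℕ} {u : Word n} {i : ℕ} (h : Act u i) : Live u i := ⟨[], u, rfl, h⟩

theorem live_far {n : ℕ} {u : Word n} {i i' : ℕ} (h : Live u i) (h' : Live u i') :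
    i = i' ∨ i + 5 ≤ i' ∨ i' + 5 ≤ i := by
  obtain ⟨l, v, hr, ha⟩ := h
  obtain ⟨l', v', hr', ha'⟩ := h'
  exact noConflict _ (l.reverse ++ l') le_rfl v v' i i' (run_append (run_reverse hr) hr') ha ha'

theorem live_run {n : ℕ} {l : List ℕ} {u v : Word n} (h : Run l u v) (i : ℕ) :
    Live v i ↔ Live u i := by
  constructor
  · rintro ⟨l', w, hr, ha⟩
    exact ⟨l ++ l', w, run_append h hr, ha⟩
  · rintro ⟨l', w, hr, ha⟩
    exact ⟨l.reverse ++ l', w, run_append (run_reverse h) hr, ha⟩

theorem live_mv {n : ℕ} {u : Word n} {i : ℕ} (h : Act u i) (k : ℕ) :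
    Live (mv u i) k ↔ Live u k :=
  live_run (l := [i]) ⟨h, rfl⟩ k

open Classical in
/-- The map flipping the third letter of every live block. -/
noncomputable def Phi {n : ℕ} (u : Word n) : Word n :=
  fun j => if 2 ≤ (j : ℕ) ∧ Live u ((j : ℕ) - 2) then !(u j) else u j

theorem letter_Phi_hit {n : ℕ} {u : Word n} {i : ℕ} (hi : i + 2 < n) (h : Live u i) :
    letter (Phi u) (i + 2) = !(letter u (i + 2)) := by
  simp [letter, Phi, hi, h]

theorem letter_Phi_miss {n : ℕ} {u : Word n} {j : ℕ} (h : ∀ i, j = i + 2 → ¬ Live u i) :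
    letter (Phi u) j = letter u j := by
  unfold letter
  by_cases hj : j < n
  · have h' : ¬ (2 ≤ j ∧ Live u (j - 2)) := by
      rintro ⟨h2, hl⟩
      exact h (j - 2) (by omega) hl
    simp [hj, Phi, h']
  · simp [hj]

theorem act_Phi_iff {n : ℕ} {u : Word n} {i : ℕ} (h : Live u i) : Act (Phi u) i ↔ Act u i := by
  have m0 : letter (Phi u) i = letter u i := letter_Phi_miss fun k hk hl => by
    have := live_far h hl; omega
  have m1 : letter (Phi u) (i + 1) = letter u (i + 1) := letter_Phi_miss fun k hk hl => by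
    have := live_far h hl; omega
  have m3 : letter (Phi u) (i + 3) = letter u (i + 3) := letter_Phi_miss fun k hk hl => by
    have := live_far h hl; omega
  have m4 : letter (Phi u) (i + 4) = letter u (i + 4) := letter_Phi_miss fun k hk hl => by
    have := live_far h hl; omega
  have m5 : letter (Phi u) (i + 5) = letter u (i + 5) := letter_Phi_miss fun k hk hl => by
    have := live_far h hl; omega
  unfold Act
  rw [m0, m1, m3, m4, m5]

theorem Phi_apply_pos {n : ℕ} {u : Word n} {j : Fin n} (h : 2 ≤ (j : ℕ) ∧ Live u ((j : ℕ) - 2)) :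
    Phi u j = !(u j) := by
  simp only [Phi, if_pos h]

theorem Phi_apply_neg {n : ℕ} {u : Word n} {j : Fin n}
    (h : ¬ (2 ≤ (j : ℕ) ∧ Live u ((j : ℕ) - 2))) : Phi u j = u j := by
  simp only [Phi, if_neg h]

theorem mv_apply {n : ℕ} (u : Word n) (i : ℕ) (j : Fin n) :
    mv u i j = if i ≤ (j : ℕ) ∧ (j : ℕ) ≤ i + 5 then !(u j) else u j := rfl

theorem Phi_mv {n : ℕ} {u : Word n} {i : ℕ} (h : Act u i) : Phi (mv u i) = mv (Phi u) i := by
  funext j
  have hl : Live (mv u i) ((j : ℕ) - 2) ↔ Live u ((j : ℕ) - 2) := live_mv h _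
  by_cases hc : 2 ≤ (j : ℕ) ∧ Live u ((j : ℕ) - 2)
  · have hc' : 2 ≤ (j : ℕ) ∧ Live (mv u i) ((j : ℕ) - 2) := by rw [hl]; exact hc
    rw [Phi_apply_pos hc', mv_apply, mv_apply, Phi_apply_pos hc]
    split_ifs <;> rfl
  · have hc' : ¬ (2 ≤ (j : ℕ) ∧ Live (mv u i) ((j : ℕ) - 2)) := by rw [hl]; exact hc
    rw [Phi_apply_neg hc', mv_apply, mv_apply, Phi_apply_neg hc]

theorem run_Phi {n : ℕ} {l : List ℕ} {u v : Word n} (h : Run l u v) :
    Run l (Phi u) (Phi v) := by
  induction l generalizing u with
  | nil => simp only [Run] at h ⊢; rw [h]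
  | cons a l ih =>
    refine ⟨(act_Phi_iff (live_of_act h.1)).2 h.1, ?_⟩
    rw [← Phi_mv h.1]
    exact ih h.2

theorem live_Phi_of_live {n : ℕ} {u : Word n} {i : ℕ} (h : Live u i) : Live (Phi u) i := by
  obtain ⟨l, v, hr, ha⟩ := h
  exact ⟨l, Phi v, run_Phi hr, (act_Phi_iff (live_of_act ha)).2 ha⟩

theorem act_of_act_Phi {n : ℕ} {u : Word n} {i : ℕ} (h : Act (Phi u) i) : Act u i := by
  by_cases hl : Live u i
  · exact (act_Phi_iff hl).1 h
  · exfalso
    apply hl
    have hi := live_of_act h
    have miss : ∀ j, i ≤ j → j ≤ i + 5 → letter (Phi u) j = letter u j := by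
      intro j h1 h2
      refine letter_Phi_miss fun k hk hlk => ?_
      have hk' := live_far hi (live_Phi_of_live hlk)
      have : i = k := by omega
      exact hl (this ▸ hlk)
    unfold Act at h
    rw [miss i (by omega) (by omega), miss (i + 1) (by omega) (by omega),
      miss (i + 3) (by omega) (by omega), miss (i + 4) (by omega) (by omega),
      miss (i + 5) (by omega) (by omega)] at h
    exact live_of_act h

theorem run_of_run_Phi {n : ℕ} {l : List ℕ} {u w : Word n} (h : Run l (Phi u) w) :
    ∃ v, w = Phi v ∧ Run l u v := by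
  induction l generalizing u with
  | nil => simp only [Run] at h; exact ⟨u, h.symm, rfl⟩
  | cons a l ih =>
    have ha := act_of_act_Phi h.1
    have h2 := h.2
    rw [← Phi_mv ha] at h2
    obtain ⟨v, hv, hr⟩ := ih h2
    exact ⟨v, hv, ha, hr⟩

theorem live_Phi_iff {n : ℕ} {u : Word n} {i : ℕ} : Live (Phi u) i ↔ Live u i := by
  refine ⟨?_, live_Phi_of_live⟩
  rintro ⟨l, w, hr, ha⟩
  obtain ⟨v, rfl, hv⟩ := run_of_run_Phi hr
  exact ⟨l, v, hv, act_of_act_Phi ha⟩

theorem Phi_Phi {n : ℕ} (u : Word n) : Phi (Phi u) = u := by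
  funext j
  have h : Live (Phi u) ((j : ℕ) - 2) ↔ Live u ((j : ℕ) - 2) := live_Phi_iff
  by_cases hc : 2 ≤ (j : ℕ) ∧ Live u ((j : ℕ) - 2)
  · have : Phi u j = !(u j) := by simp [Phi, hc]
    rw [Phi, if_pos (by rw [h]; exact hc), this, Bool.not_not]
  · have : Phi u j = u j := by simp only [Phi, if_neg hc]
    rw [Phi, if_neg (by rw [h]; exact hc), this]


/-! ### The isomorphism -/

theorem occurs_iff {n : ℕ} (a : Word (5 + 1)) (u : Word n) (i : ℕ) :
    Occurs a u i ↔ i + 5 < n ∧ letter u i = a 0 ∧ letter u (i + 1) = a 1 ∧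
      letter u (i + 2) = a 2 ∧ letter u (i + 3) = a 3 ∧ letter u (i + 4) = a 4 ∧
      letter u (i + 5) = a 5 := by
  unfold Occurs
  refine and_congr_right fun h => ?_
  rw [letter_of_lt u (show i < n by omega), letter_of_lt u (show i + 1 < n by omega),
    letter_of_lt u (show i + 2 < n by omega), letter_of_lt u (show i + 3 < n by omega),
    letter_of_lt u (show i + 4 < n by omega), letter_of_lt u (show i + 5 < n by omega)]
  constructor
  · intro hall
    exact ⟨hall 0 (by simp; omega), hall 1 (by simp; omega), hall 2 (by simp; omega),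
      hall 3 (by simp; omega), hall 4 (by simp; omega), hall 5 (by simp; omega)⟩
  · rintro ⟨h0, h1, h2, h3, h4, h5⟩ k hk
    fin_cases k
    · exact h0
    · exact h1
    · exact h2
    · exact h3
    · exact h4
    · exact h5

/-- `keyA` or its negation occurs at `i`. -/
def OccA {n : ℕ} (u : Word n) (i : ℕ) : Prop := Act u i ∧ letter u (i + 2) = !(letter u i)

/-- `keyB` or its negation occurs at `i`. -/
def OccB {n : ℕ} (u : Word n) (i : ℕ) : Prop := Act u i ∧ letter u (i + 2) = letter u i

theorem occA_iff {n : ℕ} (u : Word n) (i : ℕ) :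
    (Occurs keyA u i ∨ Occurs (negation keyA) u i) ↔ OccA u i := by
  rw [occurs_iff, occurs_iff]
  unfold OccA Act
  have k0 : keyA 0 = false := rfl
  have k1 : keyA 1 = true := rfl
  have k2 : keyA 2 = true := rfl
  have k3 : keyA 3 = false := rfl
  have k4 : keyA 4 = false := rfl
  have k5 : keyA 5 = false := rfl
  simp only [negation, k0, k1, k2, k3, k4, k5]
  cases letter u i <;> cases letter u (i + 1) <;> cases letter u (i + 2) <;> simp

theorem occB_iff {n : ℕ} (u : Word n) (i : ℕ) :
    (Occurs keyB u i ∨ Occurs (negation keyB) u i) ↔ OccB u i := by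
  rw [occurs_iff, occurs_iff]
  unfold OccB Act
  have k0 : keyB 0 = false := rfl
  have k1 : keyB 1 = true := rfl
  have k2 : keyB 2 = false := rfl
  have k3 : keyB 3 = false := rfl
  have k4 : keyB 4 = false := rfl
  have k5 : keyB 5 = false := rfl
  simp only [negation, k0, k1, k2, k3, k4, k5]
  cases letter u i <;> cases letter u (i + 1) <;> cases letter u (i + 2) <;> simp

theorem Phi_zero {n : ℕ} {u : Word n} {i : ℕ} (h : Live u i) : letter (Phi u) i = letter u i :=
  letter_Phi_miss fun k hk hl => by
    have := live_far h hl; omega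

theorem occB_Phi_iff {n : ℕ} (u : Word n) (i : ℕ) : OccB (Phi u) i ↔ OccA u i := by
  constructor
  · rintro ⟨ha, hb⟩
    have hu := act_of_act_Phi ha
    have hl := live_of_act hu
    refine ⟨hu, ?_⟩
    have h2 := letter_Phi_hit (show i + 2 < n by have := hu.1; omega) hl
    rw [h2, Phi_zero hl] at hb
    rw [← hb, Bool.not_not]
  · rintro ⟨ha, hb⟩
    have hl := live_of_act ha
    refine ⟨(act_Phi_iff hl).2 ha, ?_⟩
    rw [letter_Phi_hit (show i + 2 < n by have := ha.1; omega) hl, Phi_zero hl, hb, Bool.not_not]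

theorem mv_ne {n : ℕ} {u : Word n} {i : ℕ} (h : Act u i) : mv u i ≠ u := by
  intro he
  have h1 := letter_mv_in u h.1 (le_refl i) (by omega)
  rw [he] at h1
  cases hh : letter u i <;> simp [hh] at h1

theorem adjA_iff {n : ℕ} (u v : Word n) :
    (keywordGraph n keyA).Adj u v ↔ ∃ i, OccA u i ∧ v = mv u i := by
  constructor
  · rintro ⟨hne, i, hi, hv⟩
    by_cases h : Occurs keyA u i ∨ Occurs (negation keyA) u i
    · exact ⟨i, (occA_iff u i).1 h, by rw [hv, subst, if_pos h]; rfl⟩
    · rw [subst, if_neg h] at hv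
      exact absurd hv.symm hne
  · rintro ⟨i, h, hv⟩
    refine ⟨?_, i, h.1.1, ?_⟩
    · rw [hv]; exact (mv_ne h.1).symm
    · rw [hv, subst, if_pos ((occA_iff u i).2 h)]; rfl

theorem adjB_iff {n : ℕ} (u v : Word n) :
    (keywordGraph n keyB).Adj u v ↔ ∃ i, OccB u i ∧ v = mv u i := by
  constructor
  · rintro ⟨hne, i, hi, hv⟩
    by_cases h : Occurs keyB u i ∨ Occurs (negation keyB) u i
    · exact ⟨i, (occB_iff u i).1 h, by rw [hv, subst, if_pos h]; rfl⟩
    · rw [subst, if_neg h] at hv
      exact absurd hv.symm hne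
  · rintro ⟨i, h, hv⟩
    refine ⟨?_, i, h.1.1, ?_⟩
    · rw [hv]; exact (mv_ne h.1).symm
    · rw [hv, subst, if_pos ((occB_iff u i).2 h)]; rfl

/-- The graphs of the keywords `011000` and `010000` are isomorphic for every `n`. -/
theorem iso (n : ℕ) : Nonempty (keywordGraph n keyA ≃g keywordGraph n keyB) := by
  refine ⟨⟨⟨Phi, Phi, Phi_Phi, Phi_Phi⟩, ?_⟩⟩
  intro u v
  change (keywordGraph n keyB).Adj (Phi u) (Phi v) ↔ (keywordGraph n keyA).Adj u v
  rw [adjA_iff, adjB_iff]
  refine exists_congr fun i => ?_
  rw [occB_Phi_iff]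
  refine and_congr_right fun h => ?_
  rw [← Phi_mv h.1]
  constructor
  · intro he
    have := congrArg Phi he
    rwa [Phi_Phi, Phi_Phi] at this
  · rintro rfl
    rfl

/-- The orbit of `keyA` avoids `keyB`. -/
theorem not_related : ¬ Related keyA keyB := by
  have key : ∀ b : Word (5 + 1), Related keyA b →
      b = keyA ∨ b = negation keyA ∨ b = seminegation keyA ∨ b = negation (seminegation keyA) ∨
      b = reversal keyA ∨ b = reversal (negation keyA) ∨ b = reversal (seminegation keyA) ∨
      b = reversal (negation (seminegation keyA)) := by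
    intro b hb
    induction hb with
    | refl => left; rfl
    | neg _ ih =>
      rcases ih with rfl | rfl | rfl | rfl | rfl | rfl | rfl | rfl <;> decide
    | semineg _ ih =>
      rcases ih with rfl | rfl | rfl | rfl | rfl | rfl | rfl | rfl <;> decide
    | rev _ ih =>
      rcases ih with rfl | rfl | rfl | rfl | rfl | rfl | rfl | rfl <;> decide
  intro h
  have := key keyB h
  revert this
  decide

/-- **Negative answer to Q1**: there are `m ≥ 1` and keywords `a`, `b` of length `m + 1` whose
substitution graphs are isomorphic for every `n ≥ 1`, although `b` is not obtained from `a` by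
a finite composition of negation, seminegation and reversal. -/
theorem result : ∃ (m : ℕ) (a b : Word (m + 1)), 1 ≤ m ∧
    (∀ n : ℕ, 1 ≤ n → Nonempty (keywordGraph n a ≃g keywordGraph n b)) ∧ ¬ Related a b :=
  ⟨5, keyA, keyB, by norm_num, fun n _ => iso n, not_related⟩

end Pool.Agent.Results.MP_53071c_co.Disproof
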